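import Mathlib

/-!
Spectral magnitudes of windowed finite sequences.
-/

namespace Pool.Agent.MP_474a86_an

open Polynomial

/-- The polynomial `p_a (z) = ∑ a(k) z ^ k`. -/
noncomputable def pol {n : ℕ} (a : Fin (n + 1) → ℂ) : ℂ[X] := ∑ k, C (a k) * X ^ (k : ℕ)

/-- The spectral magnitude `ω ↦ |p_a (e ^ (i ω))|`. -/
noncomputable def mag {n : ℕ} (a : Fin (n + 1) → ℂ) (ω : ℝ) : ℝ :=
  ‖(pol a).eval (Complex.exp (Complex.I * ω))‖

/-- Magnitude-determining pairs of windows for degree `n`. -/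
def Determining (n : ℕ) (w₁ w₂ : Fin (n + 1) → ℂ) : Prop :=
  ∀ a a' : Fin (n + 1) → ℂ, a (Fin.last n) ≠ 0 → a' (Fin.last n) ≠ 0 →
    (∀ ω : ℝ, mag (fun k => a k * w₁ k) ω = mag (fun k => a' k * w₁ k) ω) →
    (∀ ω : ℝ, mag (fun k => a k * w₂ k) ω = mag (fun k => a' k * w₂ k) ω) →
    ∃ c : ℂ, ‖c‖ = 1 ∧ pol a' = C c * pol a

end Pool.Agent.MP_474a86_an
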