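import Pool.Agent.MP_474a86_an.Suff

namespace Pool.Agent.MP_474a86_an

open Polynomial Finset ComplexConjugate

variable {n : ℕ}

/-- The windowed polynomial evaluated at `z`. -/
noncomputable def ev (u w : Fin (n + 1) → ℂ) (z : ℂ) : ℂ := ∑ k, u k * w k * z ^ (k : ℕ)

lemma mag_eq (u w : Fin (n + 1) → ℂ) (ω : ℝ) :
    mag (fun k => u k * w k) ω = ‖ev u w (Complex.exp (Complex.I * ω))‖ := by
  rw [mag, eval_pol, ev]

lemma ev_comb (u v w : Fin (n + 1) → ℂ) (s t z : ℂ) :
    ev (fun k => s * u k + t * v k) w z = s * ev u w z + t * ev v w z := by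
  simp only [ev, mul_sum, ← sum_add_distrib]
  exact sum_congr rfl fun k _ => by ring

/-- A vector supported on two points. -/
noncomputable def two (p q : Fin (n + 1)) (x y : ℂ) : Fin (n + 1) → ℂ :=
  fun k => (if k = p then x else 0) + (if k = q then y else 0)

lemma ev_two (p q : Fin (n + 1)) (x y : ℂ) (w : Fin (n + 1) → ℂ) (z : ℂ) :
    ev (two p q x y) w z = x * w p * z ^ (p : ℕ) + y * w q * z ^ (q : ℕ) := by
  simp [ev, two, add_mul, sum_add_distrib, ite_mul]

lemma two_last_zero {p q : Fin (n + 1)} (hp : (p : ℕ) < n) (hq : (q : ℕ) < n) (x y : ℂ) :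
    two p q x y (Fin.last n) = 0 := by
  have h1 : Fin.last n ≠ p := fun h => by rw [← h] at hp; simp at hp
  have h2 : Fin.last n ≠ q := fun h => by rw [← h] at hq; simp at hq
  simp [two, h1, h2]

lemma two_last {p : Fin (n + 1)} (hp : (p : ℕ) < n) (x y : ℂ) :
    two p (Fin.last n) x y (Fin.last n) = y := by
  have h1 : Fin.last n ≠ p := fun h => by rw [← h] at hp; simp at hp
  simp [two, h1]

lemma norm_eq_of_mul_conj {x y : ℂ} (h : x * conj x = y * conj y) : ‖x‖ = ‖y‖ := by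
  rw [Complex.mul_conj', Complex.mul_conj'] at h
  have h3 : ‖x‖ ^ 2 = ‖y‖ ^ 2 := by exact_mod_cast h
  exact (pow_left_inj₀ (norm_nonneg _) (norm_nonneg _) two_ne_zero).1 h3

lemma unit_exp (ω : ℝ) :
    Complex.exp (Complex.I * ω) * conj (Complex.exp (Complex.I * ω)) = 1 := by
  rw [Complex.mul_conj', norm_exp]; simp

variable {w₁ w₂ : Fin (n + 1) → ℂ}

lemma Determining.symm (h : Determining n w₁ w₂) : Determining n w₂ w₁ :=
  fun a a' ha ha' h1 h2 => h a a' ha ha' h2 h1

lemma badI (h : Determining n w₁ w₂) (u v : Fin (n + 1) → ℂ) (hu : u (Fin.last n) = 0)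
    (hv : v (Fin.last n) ≠ 0)
    (h1 : ∀ z, z * conj z = 1 →
      ev u w₁ z * conj (ev u w₁ z) = ev v w₁ z * conj (ev v w₁ z))
    (h2 : ∀ z, z * conj z = 1 →
      ev u w₂ z * conj (ev u w₂ z) = ev v w₂ z * conj (ev v w₂ z)) : False := by
  have key : ∀ w : Fin (n + 1) → ℂ, (∀ z, z * conj z = 1 →
      ev u w z * conj (ev u w z) = ev v w z * conj (ev v w z)) → ∀ ω : ℝ,
      mag (fun k => (2 * u k + 1 * v k) * w k) ω = mag (fun k => (1 * u k + 2 * v k) * w k) ω := by
    intro w hw ω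
    rw [mag_eq, mag_eq, ev_comb, ev_comb]
    apply norm_eq_of_mul_conj
    simp only [map_add, map_mul, map_one, Complex.conj_ofNat]
    linear_combination 3 * hw _ (unit_exp ω)
  obtain ⟨c, hc, e⟩ := h (fun k => 2 * u k + 1 * v k) (fun k => 1 * u k + 2 * v k)
    (by simpa [hu] using hv) (by simpa [hu] using hv) (key w₁ h1) (key w₂ h2)
  have := (pol_eq_iff _ _ _).1 e (Fin.last n)
  simp only [hu, mul_zero, zero_add, one_mul] at this
  have h3 : c = 2 := (mul_right_cancel₀ hv this).symm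
  rw [h3] at hc
  norm_num at hc

lemma badII (h : Determining n w₁ w₂) (u r : Fin (n + 1) → ℂ) (hu : u (Fin.last n) = 0)
    (hr : r (Fin.last n) ≠ 0) (i : Fin (n + 1)) (hi : u i ≠ 0)
    (h1 : ∀ z, z * conj z = 1 →
      ev r w₁ z * conj (ev u w₁ z) + ev u w₁ z * conj (ev r w₁ z) = 0)
    (h2 : ∀ z, z * conj z = 1 →
      ev r w₂ z * conj (ev u w₂ z) + ev u w₂ z * conj (ev r w₂ z) = 0) : False := by
  have key : ∀ w : Fin (n + 1) → ℂ, (∀ z, z * conj z = 1 →
      ev r w z * conj (ev u w z) + ev u w z * conj (ev r w z) = 0) → ∀ ω : ℝ,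
      mag (fun k => (1 * u k + 1 * r k) * w k) ω =
        mag (fun k => (-1 * u k + 1 * r k) * w k) ω := by
    intro w hw ω
    rw [mag_eq, mag_eq, ev_comb, ev_comb]
    apply norm_eq_of_mul_conj
    simp only [map_add, map_mul, map_one, map_neg]
    linear_combination 2 * hw _ (unit_exp ω)
  obtain ⟨c, hc, e⟩ := h (fun k => 1 * u k + 1 * r k) (fun k => -1 * u k + 1 * r k)
    (by simpa [hu] using hr) (by simpa [hu] using hr) (key w₁ h1) (key w₂ h2)
  have k1 := (pol_eq_iff _ _ _).1 e (Fin.last n)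
  simp only [hu, mul_zero, zero_add, one_mul] at k1
  have h3 : c = 1 := by
    apply mul_right_cancel₀ hr
    rw [← k1, one_mul]
  have k2 := (pol_eq_iff _ _ _).1 e i
  rw [h3] at k2
  apply hi
  linear_combination (-1 / 2 : ℂ) * k2

lemma stepA (h : Determining n w₁ w₂) {i : Fin (n + 1)} (hi : (i : ℕ) < n) :
    w₁ i * w₁ (Fin.last n) ≠ 0 ∨ w₂ i * w₂ (Fin.last n) ≠ 0 := by
  by_contra hc
  push Not at hc
  have key : ∀ w : Fin (n + 1) → ℂ, w i * w (Fin.last n) = 0 → ∀ z,
      ev (two i (Fin.last n) 0 1) w z * conj (ev (two i i 1 0) w z) +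
        ev (two i i 1 0) w z * conj (ev (two i (Fin.last n) 0 1) w z) = 0 := by
    intro w hw z
    rcases mul_eq_zero.1 hw with h0 | h0 <;> simp [ev_two, h0]
  exact badII h (two i i 1 0) (two i (Fin.last n) 0 1) (two_last_zero hi hi _ _)
    (by rw [two_last hi]; exact one_ne_zero) i (by simp [two]) (fun z _ => key w₁ hc.1 z)
    (fun z _ => key w₂ hc.2 z)

lemma pow_unit {z : ℂ} (hz : z * conj z = 1) (k : ℕ) : z ^ k * conj z ^ k = 1 := by
  rw [← mul_pow, hz, one_pow]

lemma stepB_aux (h : Determining n w₁ w₂) {j : Fin (n + 1)} (hj : (j : ℕ) < n) (h0 : w₁ j ≠ 0) :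
    w₁ j * conj (w₁ j) * (w₂ (Fin.last n) * conj (w₂ (Fin.last n))) ≠
      w₂ j * conj (w₂ j) * (w₁ (Fin.last n) * conj (w₁ (Fin.last n))) := by
  intro hD
  have h0' : conj (w₁ j) ≠ 0 := (_root_.map_ne_zero _).2 h0
  refine badI h (two j j (w₁ (Fin.last n)) 0) (two j (Fin.last n) 0 (w₁ j))
    (two_last_zero hj hj _ _) (by rw [two_last hj]; exact h0) (fun z hz => ?_) (fun z hz => ?_)
  · simp only [ev_two, zero_mul, add_zero, zero_add, map_mul, map_pow]
    linear_combination (w₁ j * conj (w₁ j) * (w₁ (Fin.last n) * conj (w₁ (Fin.last n)))) *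
      (pow_unit hz j - pow_unit hz (Fin.last n : ℕ))
  · simp only [ev_two, zero_mul, add_zero, zero_add, map_mul, map_pow]
    linear_combination (w₂ j * conj (w₂ j) * (w₁ (Fin.last n) * conj (w₁ (Fin.last n)))) *
      pow_unit hz j - (w₁ j * conj (w₁ j) * (w₂ (Fin.last n) * conj (w₂ (Fin.last n)))) *
      pow_unit hz (Fin.last n : ℕ) - hD

lemma stepB (h : Determining n w₁ w₂) {j : Fin (n + 1)} (hj : (j : ℕ) < n) :
    w₁ j * conj (w₁ j) * (w₂ (Fin.last n) * conj (w₂ (Fin.last n))) ≠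
      w₂ j * conj (w₂ j) * (w₁ (Fin.last n) * conj (w₁ (Fin.last n))) := by
  rcases stepA h hj with h0 | h0
  · exact stepB_aux h hj (left_ne_zero_of_mul h0)
  · exact (stepB_aux h.symm hj (left_ne_zero_of_mul h0)).symm

lemma stepC (h : Determining n w₁ w₂) {p q : Fin (n + 1)} (hp : (p : ℕ) < n) (hq : (q : ℕ) < n)
    (h2 : w₂ p = 0) (h1 : w₁ q = 0) : False := by
  have a1 : w₁ p ≠ 0 := by
    have := stepA h hp
    simp only [h2, zero_mul, ne_eq, not_true, or_false] at this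
    exact left_ne_zero_of_mul this
  have a2 : w₂ q ≠ 0 := by
    have := stepA h hq
    simp only [h1, zero_mul, ne_eq, not_true, false_or] at this
    exact left_ne_zero_of_mul this
  refine badI h (two p q (w₁ (Fin.last n) * w₂ q) (w₂ (Fin.last n) * w₁ p))
    (two p (Fin.last n) 0 (w₁ p * w₂ q)) (two_last_zero hp hq _ _)
    (by rw [two_last hp]; exact mul_ne_zero a1 a2) (fun z hz => ?_) (fun z hz => ?_)
  · simp only [ev_two, h1, zero_mul, mul_zero, add_zero, zero_add, map_mul, map_pow]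
    linear_combination (w₁ p * conj (w₁ p) * (w₂ q * conj (w₂ q)) *
      (w₁ (Fin.last n) * conj (w₁ (Fin.last n)))) *
      (pow_unit hz p - pow_unit hz (Fin.last n : ℕ))
  · simp only [ev_two, h2, zero_mul, mul_zero, zero_add, map_mul, map_pow]
    linear_combination (w₁ p * conj (w₁ p) * (w₂ q * conj (w₂ q)) *
      (w₂ (Fin.last n) * conj (w₂ (Fin.last n)))) *
      (pow_unit hz q - pow_unit hz (Fin.last n : ℕ))

lemma two_term {z : ℂ} (hz : z * conj z = 1) (A B : ℂ) (j k : ℕ) :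
    (A * z ^ j + B * z ^ (j + k)) * conj (A * z ^ j + B * z ^ (j + k)) =
      A * conj A + B * conj B + B * conj A * z ^ k + A * conj B * conj z ^ k := by
  simp only [map_add, map_mul, map_pow, pow_add]
  linear_combination (A * conj A + B * conj A * z ^ k + A * conj B * conj z ^ k
    + B * conj B * (z ^ k * conj z ^ k)) * pow_unit hz j + B * conj B * pow_unit hz k

/-- The main case, with the first window nonzero at the four points. -/
lemma stepD (h : Determining n w₁ w₂) {i j m : Fin (n + 1)} {k : ℕ} (hi : (i : ℕ) < n)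
    (hm : (m : ℕ) < n) (e1 : (i : ℕ) = j + k) (e2 : n = m + k) (ai : w₁ i ≠ 0) (aj : w₁ j ≠ 0)
    (am : w₁ m ≠ 0) (an : w₁ (Fin.last n) ≠ 0) :
    w₁ i * conj (w₁ j) * (w₂ (Fin.last n) * conj (w₂ m)) ≠
      w₂ i * conj (w₂ j) * (w₁ (Fin.last n) * conj (w₁ m)) := by
  intro hD
  have hj : (j : ℕ) < n := by omega
  have eN : ((Fin.last n : Fin (n + 1)) : ℕ) = m + k := e2
  obtain ⟨t, ht⟩ : ∃ t : Fin (n + 1) → ℂ, ∀ l, w₁ l ≠ 0 → w₂ l = t l * w₁ l :=
    ⟨fun l => w₂ l / w₁ l, fun l hl => by field_simp⟩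
  have cj : ∀ l, w₁ l ≠ 0 → conj (w₁ l) ≠ 0 := fun l hl => (_root_.map_ne_zero _).2 hl
  have hT : t (Fin.last n) * conj (t m) = t i * conj (t j) := by
    rw [ht _ ai, ht _ aj, ht _ am, ht _ an] at hD
    simp only [map_mul] at hD
    apply mul_left_cancel₀ (mul_ne_zero (mul_ne_zero ai (cj _ aj)) (mul_ne_zero an (cj _ am)))
    linear_combination hD
  have hT' : conj (t (Fin.last n)) * t m = conj (t i) * t j := by
    simpa using congrArg conj hT
  have hne : ∀ l : Fin (n + 1), (l : ℕ) < n → w₁ l ≠ 0 → ‖t l‖ ≠ ‖t (Fin.last n)‖ := by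
    intro l hl al e
    apply stepB h hl
    have : t l * conj (t l) = t (Fin.last n) * conj (t (Fin.last n)) := by
      rw [Complex.mul_conj', Complex.mul_conj', e]
    rw [ht _ al, ht _ an]
    simp only [map_mul]
    linear_combination (-(w₁ l * conj (w₁ l) * (w₁ (Fin.last n) * conj (w₁ (Fin.last n))))) * this
  have hnorm : ‖t (Fin.last n)‖ * ‖t m‖ = ‖t i‖ * ‖t j‖ := by
    simpa using congrArg norm hT
  have d1 : ∀ (l : Fin (n + 1)) (x : ℂ), w₁ l ≠ 0 → x / w₁ l * w₁ l = x :=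
    fun l x hl => div_mul_cancel₀ x hl
  have d2 : ∀ (l : Fin (n + 1)) (x : ℂ), w₁ l ≠ 0 → x / w₁ l * w₂ l = x * t l :=
    fun l x hl => by rw [ht l hl]; field_simp
  have ni := hne i hi ai
  have nj := hne j hj aj
  have nm := hne m hm am
  have p0 := norm_nonneg (t j)
  have p1 := norm_nonneg (t i)
  have p2 := norm_nonneg (t m)
  have p3 := norm_nonneg (t (Fin.last n))
  by_cases c1 : 0 < (‖t j‖ ^ 2 - ‖t m‖ ^ 2) * (‖t (Fin.last n)‖ ^ 2 - ‖t i‖ ^ 2)
  · have hd : ‖t j‖ ^ 2 - ‖t m‖ ^ 2 ≠ 0 := left_ne_zero_of_mul c1.ne'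
    obtain ⟨x, hx⟩ : ∃ x : ℝ,
        x ^ 2 * (‖t j‖ ^ 2 - ‖t m‖ ^ 2) = ‖t (Fin.last n)‖ ^ 2 - ‖t i‖ ^ 2 := by
      refine ⟨√((‖t (Fin.last n)‖ ^ 2 - ‖t i‖ ^ 2) / (‖t j‖ ^ 2 - ‖t m‖ ^ 2)), ?_⟩
      rw [Real.sq_sqrt, div_mul_cancel₀ _ hd]
      rw [← mul_div_mul_left _ _ hd]
      exact div_nonneg c1.le (mul_self_nonneg _)
    have hx' : (x : ℂ) ^ 2 * (t j * conj (t j) - t m * conj (t m)) =
        t (Fin.last n) * conj (t (Fin.last n)) - t i * conj (t i) := by
      simp only [Complex.mul_conj']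
      exact_mod_cast hx
    refine badI h (two j i (x / w₁ j) (1 / w₁ i)) (two m (Fin.last n) (x / w₁ m)
      (1 / w₁ (Fin.last n))) (two_last_zero hj hi _ _)
      (by rw [two_last hm]; exact one_div_ne_zero an) (fun z hz => ?_) (fun z hz => ?_)
    · rw [ev_two, ev_two, d1 _ _ ai, d1 _ _ aj, d1 _ _ am, d1 _ _ an, e1, eN, two_term hz,
        two_term hz]
    · rw [ev_two, ev_two, d2 _ _ ai, d2 _ _ aj, d2 _ _ am, d2 _ _ an, e1, eN, two_term hz,
        two_term hz]
      simp only [map_mul, map_one, Complex.conj_ofReal]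
      linear_combination hx' - (x * z ^ k) * hT - (x * conj z ^ k) * hT'
  have hz : ‖t j‖ = 0 ∧ ‖t m‖ = 0 := by
    push Not at c1
    have g : ‖t j‖ = ‖t m‖ := by
      rcases lt_trichotomy ‖t j‖ ‖t m‖ with l | l | l
      · exfalso
        have l2 : ‖t (Fin.last n)‖ < ‖t i‖ := by
          rcases lt_or_gt_of_ne ni with g | g
          · nlinarith
          · exact g
        have a1 : ‖t j‖ ^ 2 - ‖t m‖ ^ 2 < 0 := by nlinarith
        have a2 : ‖t (Fin.last n)‖ ^ 2 - ‖t i‖ ^ 2 < 0 := by nlinarith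
        exact absurd (mul_pos_of_neg_of_neg a1 a2) (not_lt.2 c1)
      · exact l
      · exfalso
        have l2 : ‖t i‖ < ‖t (Fin.last n)‖ := by
          rcases lt_or_gt_of_ne ni with g | g
          · exact g
          · nlinarith
        have a1 : 0 < ‖t j‖ ^ 2 - ‖t m‖ ^ 2 := by nlinarith
        have a2 : 0 < ‖t (Fin.last n)‖ ^ 2 - ‖t i‖ ^ 2 := by nlinarith
        exact absurd (mul_pos a1 a2) (not_lt.2 c1)
    have g0 : ‖t m‖ = 0 := by
      by_contra hc
      rw [g] at hnorm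
      exact ni (mul_right_cancel₀ hc hnorm).symm
    exact ⟨g.trans g0, g0⟩
  have tj : t j = 0 := norm_eq_zero.1 hz.1
  have tm : t m = 0 := norm_eq_zero.1 hz.2
  by_cases ti : t i = 0
  · obtain ⟨d, hd⟩ : ∃ d, (m : ℕ) = j + d := ⟨m - j, by omega⟩
    refine badII h (two m i (1 / w₁ m) (1 / w₁ i)) (two j (Fin.last n) (-1 / w₁ j)
      (1 / w₁ (Fin.last n))) (two_last_zero hm hi _ _)
      (by rw [two_last hj]; exact one_div_ne_zero an) m ?_ (fun z hz => ?_) (fun z hz => ?_)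
    · by_cases hmi : m = i
      · subst hmi
        simp only [two, if_true]
        rw [← two_mul]
        exact mul_ne_zero two_ne_zero (one_div_ne_zero am)
      · simp [two, hmi, am]
    · rw [ev_two, ev_two, d1 _ _ ai, d1 _ _ aj, d1 _ _ am, d1 _ _ an, e1, eN, hd]
      simp only [map_add, map_mul, map_pow, map_one, map_neg, pow_add]
      linear_combination (z ^ (j : ℕ) * conj z ^ (j : ℕ)) *
        ((z ^ k + conj z ^ k) * pow_unit hz d + (z ^ d + conj z ^ d) * pow_unit hz k)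
    · rw [ev_two m, d2 _ _ ai, d2 _ _ am, ti, tm]
      simp
  · refine badI h (two j i (‖t i‖ / w₁ j) (‖t (Fin.last n)‖ / w₁ i)) (two m (Fin.last n)
      (‖t (Fin.last n)‖ / w₁ m) (‖t i‖ / w₁ (Fin.last n))) (two_last_zero hj hi _ _)
      (by rw [two_last hm]; exact div_ne_zero (by simpa using ti) an) (fun z hz => ?_)
      (fun z hz => ?_)
    · rw [ev_two, ev_two, d1 _ _ ai, d1 _ _ aj, d1 _ _ am, d1 _ _ an, e1, eN, two_term hz,
        two_term hz]
      simp only [Complex.conj_ofReal]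
      ring
    · rw [ev_two, ev_two, d2 _ _ ai, d2 _ _ aj, d2 _ _ am, d2 _ _ an, e1, eN, two_term hz,
        two_term hz, tj, tm]
      simp only [map_mul, Complex.conj_ofReal, mul_zero, zero_mul, map_zero, add_zero, zero_add]
      have q1 := Complex.mul_conj' (t i)
      have q2 := Complex.mul_conj' (t (Fin.last n))
      linear_combination ((‖t (Fin.last n)‖ : ℂ) ^ 2) * q1 - ((‖t i‖ : ℂ) ^ 2) * q2

theorem necessary (h : Determining n w₁ w₂) (i j m : Fin (n + 1)) (hji : j ≤ i)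
    (hi : (i : ℕ) < n) (e : (i : ℕ) + m = j + n) :
    w₁ i * conj (w₁ j) * (w₂ (Fin.last n) * conj (w₂ m)) ≠
      w₂ i * conj (w₂ j) * (w₁ (Fin.last n) * conj (w₁ m)) := by
  have hji' : (j : ℕ) ≤ i := hji
  rcases hji'.eq_or_lt with l | l
  · have e1 : j = i := Fin.ext l
    have e2 : m = Fin.last n := Fin.ext (by simp only [Fin.val_last]; omega)
    subst e1 e2
    exact stepB h hi
  have hm : (m : ℕ) < n := by omega
  have hj : (j : ℕ) < n := by omega
  have main : ∀ {w₁ w₂ : Fin (n + 1) → ℂ}, Determining n w₁ w₂ →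
      w₁ m * w₁ (Fin.last n) ≠ 0 → w₁ i * conj (w₁ j) * (w₂ (Fin.last n) * conj (w₂ m)) ≠
      w₂ i * conj (w₂ j) * (w₁ (Fin.last n) * conj (w₁ m)) := by
    intro w₁ w₂ h h0
    have am := left_ne_zero_of_mul h0
    have an := right_ne_zero_of_mul h0
    by_cases ai : w₁ i = 0
    · intro hD
      rw [ai] at hD
      simp only [zero_mul, zero_eq_mul, mul_eq_zero, map_eq_zero, am, an, or_false] at hD
      rcases hD with g | g
      · simpa [ai, g] using stepA h hi
      · exact stepC h hj hi g ai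
    by_cases aj : w₁ j = 0
    · intro hD
      rw [aj] at hD
      simp only [map_zero, mul_zero, zero_mul, zero_eq_mul, mul_eq_zero, map_eq_zero, am, an,
        or_false] at hD
      rcases hD with g | g
      · exact stepC h hi hj g aj
      · simpa [aj, g] using stepA h hj
    exact stepD h hi hm (k := i - j) (by omega) (by omega) ai aj am an
  rcases stepA h hm with h0 | h0
  · exact main h h0
  · exact (main h.symm h0).symm

end Pool.Agent.MP_474a86_an
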