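import Pool.Agent.MP_474a86_an.Defs

namespace Pool.Agent.MP_474a86_an

open Polynomial Finset ComplexConjugate

variable {n : ℕ}

lemma coeff_pol (a : Fin (n + 1) → ℂ) (k : Fin (n + 1)) : (pol a).coeff k = a k := by
  simp only [pol, finsetSum_coeff, coeff_C_mul_X_pow]
  rw [Finset.sum_eq_single k]
  · simp
  · intro b _ hb
    rw [if_neg]
    exact fun h => hb (Fin.ext h.symm)
  · simp

lemma eval_pol (a : Fin (n + 1) → ℂ) (z : ℂ) : (pol a).eval z = ∑ k, a k * z ^ (k : ℕ) := by
  simp [pol, eval_finsetSum]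

lemma pol_eq_iff (a a' : Fin (n + 1) → ℂ) (c : ℂ) :
    pol a' = C c * pol a ↔ ∀ k, a' k = c * a k := by
  constructor
  · intro h k
    rw [← coeff_pol a', h, coeff_C_mul, coeff_pol]
  · intro h
    simp only [pol, mul_sum, h, C_mul, mul_assoc]

lemma norm_exp (ω : ℝ) : ‖Complex.exp (Complex.I * ω)‖ = 1 := by
  rw [mul_comm]; exact Complex.norm_exp_ofReal_mul_I ω

lemma circle_infinite : (Set.range fun ω : ℝ => Complex.exp (Complex.I * ω)).Infinite := by
  have h1 : Set.InjOn (fun ω : ℝ => Complex.exp (Complex.I * ω)) (Set.Icc 0 Real.pi) := by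
    intro x hx y hy h
    apply Real.injOn_cos hx hy
    have := congrArg Complex.re h
    simpa only [mul_comm Complex.I, Complex.exp_ofReal_mul_I_re] using this
  exact ((Set.Icc_infinite Real.pi_pos).image h1).mono (Set.image_subset_range _ _)

/-- Equal magnitudes give equal autocorrelations. -/
lemma diag_sum (b b' : Fin (n + 1) → ℂ) (h : ∀ ω : ℝ, mag b ω = mag b' ω) (r : ℕ) :
    ∑ p : Fin (n + 1) × Fin (n + 1), (if r = p.1 + (n - p.2) then
      b p.1 * conj (b p.2) - b' p.1 * conj (b' p.2) else 0) = 0 := by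
  let G : ℂ[X] := ∑ p : Fin (n + 1) × Fin (n + 1),
    C (b p.1 * conj (b p.2) - b' p.1 * conj (b' p.2)) * X ^ ((p.1 : ℕ) + (n - p.2))
  have hG : G = 0 := by
    apply Polynomial.eq_zero_of_infinite_isRoot
    refine circle_infinite.mono ?_
    rintro _ ⟨ω, rfl⟩
    set z := Complex.exp (Complex.I * ω) with hz
    have hz1 : z * conj z = 1 := by
      rw [Complex.mul_conj, Complex.normSq_eq_norm_sq, norm_exp]; simp
    have key : ∀ c : Fin (n + 1) → ℂ, ∑ p : Fin (n + 1) × Fin (n + 1),
        c p.1 * conj (c p.2) * z ^ ((p.1 : ℕ) + (n - p.2)) =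
          z ^ n * ((mag c ω : ℂ) ^ 2) := by
      intro c
      rw [mag, ← hz, ← Complex.mul_conj', eval_pol, map_sum, sum_mul_sum, Fintype.sum_prod_type,
        mul_sum]
      refine sum_congr rfl fun i _ => ?_
      rw [mul_sum]
      refine sum_congr rfl fun j _ => ?_
      have hj : (j : ℕ) ≤ n := Nat.lt_succ_iff.1 j.2
      have e : z ^ n = z ^ (n - j) * z ^ (j : ℕ) := by rw [← pow_add, Nat.sub_add_cancel hj]
      have e2 : z ^ (j : ℕ) * conj z ^ (j : ℕ) = 1 := by rw [← mul_pow, hz1, one_pow]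
      rw [e, map_mul, map_pow, pow_add]
      linear_combination (-(c i * conj (c j) * z ^ (i : ℕ) * z ^ (n - j))) * e2
    show G.eval z = 0
    simp only [G, eval_finsetSum, eval_mul, eval_C, eval_pow, eval_X, sub_mul, sum_sub_distrib]
    rw [key, key, h, sub_self]
  have := congrArg (fun P : ℂ[X] => P.coeff r) hG
  simpa only [G, finsetSum_coeff, coeff_C_mul_X_pow, coeff_zero] using this

/-- A triangular `3 × 3` minor of a matrix of rank at most two has a zero on the diagonal. -/
lemma tri {a1 a2 a3 b1 b2 b3 c1 c2 c3 d1 d2 d3 : ℂ} (h21 : a2 * c1 - b2 * d1 = 0)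
    (h31 : a3 * c1 - b3 * d1 = 0) (h32 : a3 * c2 - b3 * d2 = 0) :
    (a1 * c1 - b1 * d1) * (a2 * c2 - b2 * d2) * (a3 * c3 - b3 * d3) = 0 := by
  linear_combination
    ((a1 * c2 - b1 * d2) * (a3 * c3 - b3 * d3) - (a1 * c3 - b1 * d3) * (a3 * c2 - b3 * d2)) * h21
    + ((a1 * c3 - b1 * d3) * (a2 * c2 - b2 * d2) - (a1 * c2 - b1 * d2) * (a2 * c3 - b2 * d3)) * h31
    + (a1 * c1 - b1 * d1) * (a2 * c3 - b2 * d3) * h32

theorem sufficient (w₁ w₂ : Fin (n + 1) → ℂ)
    (h0 : w₁ 0 * w₁ (Fin.last n) ≠ 0 ∨ w₂ 0 * w₂ (Fin.last n) ≠ 0)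
    (hD : ∀ i j m : Fin (n + 1), j ≤ i → (i : ℕ) < n → (i : ℕ) + m = j + n →
      w₁ i * conj (w₁ j) * (w₂ (Fin.last n) * conj (w₂ m)) ≠
        w₂ i * conj (w₂ j) * (w₁ (Fin.last n) * conj (w₁ m))) :
    Determining n w₁ w₂ := by
  intro a a' ha ha' h1 h2
  set N := Fin.last n with hN
  let Q : Fin (n + 1) → Fin (n + 1) → ℂ := fun i j => a i * conj (a j) - a' i * conj (a' j)
  have hrow : (∀ m, Q N m = 0) → ∃ c : ℂ, ‖c‖ = 1 ∧ pol a' = C c * pol a := by
    intro h
    have hc : conj (a' N) ≠ 0 := (_root_.map_ne_zero _).2 ha'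
    refine ⟨conj (a N) / conj (a' N), ?_, (pol_eq_iff _ _ _).2 fun k => ?_⟩
    · have := h N
      simp only [Q, Complex.mul_conj', sub_eq_zero] at this
      have h3 : ‖a N‖ ^ 2 = ‖a' N‖ ^ 2 := by exact_mod_cast this
      have h4 : ‖a N‖ = ‖a' N‖ := (pow_left_inj₀ (norm_nonneg _) (norm_nonneg _) two_ne_zero).1 h3
      rw [norm_div, Complex.norm_conj, Complex.norm_conj, h4, div_self (norm_ne_zero_iff.2 ha')]
    · have := congrArg conj (h k)
      simp only [Q, map_sub, map_mul, Complex.conj_conj, map_zero] at this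
      field_simp
      linear_combination -this
  by_contra hcon
  obtain ⟨m0, hm0⟩ : ∃ m, Q N m ≠ 0 := by
    by_contra h
    push Not at h
    exact hcon (hrow h)
  obtain ⟨⟨i, j⟩, hij, hmax⟩ := Finset.exists_max_image
    (univ.filter fun p : Fin (n + 1) × Fin (n + 1) => Q p.1 p.2 ≠ 0)
    (fun p => (p.1 : ℕ) + (n - p.2)) ⟨(N, m0), by simpa using hm0⟩
  simp only [mem_filter, mem_univ, true_and] at hij hmax
  have hz : ∀ i' j' : Fin (n + 1), (i : ℕ) + (n - j) < i' + (n - j') → Q i' j' = 0 := by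
    intro i' j' h
    by_contra hne
    exact absurd (hmax (i', j') hne) (not_le.2 h)
  have hNv : (N : ℕ) = n := rfl
  have hji : j ≤ i := by
    have : Q j i ≠ 0 := by
      intro h
      apply hij
      have := congrArg conj h
      simp only [Q, map_sub, map_mul, Complex.conj_conj, map_zero] at this
      simp only [Q]
      linear_combination this
    have h3 := hmax (j, i) this
    have := i.2; have := j.2
    simp only at h3
    show (j : ℕ) ≤ i
    omega
  have hsum : ∀ w : Fin (n + 1) → ℂ,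
      (∀ ω : ℝ, mag (fun k => a k * w k) ω = mag (fun k => a' k * w k) ω) →
      ∑ p : Fin (n + 1) × Fin (n + 1), (if (i : ℕ) + (n - j) = p.1 + (n - p.2) then
        w p.1 * conj (w p.2) * Q p.1 p.2 else 0) = 0 := by
    intro w hw
    refine Eq.trans (sum_congr rfl fun p _ => ?_) (diag_sum _ _ hw ((i : ℕ) + (n - j)))
    split_ifs
    · simp only [Q, map_mul]; ring
    · rfl
  have htwo : ∀ i1 j1 i2 j2 : Fin (n + 1), (i : ℕ) + (n - j) = i1 + (n - j1) →
      (i : ℕ) + (n - j) = i2 + (n - j2) → (i1 : ℕ) < i2 → (i2 : ℕ) < n → Q i1 j1 ≠ 0 →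
      Q i2 j2 = 0 := by
    intro i1 j1 i2 j2 e1 e2 l1 l2 q1
    have := tri (a1 := a i1) (b1 := a' i1) (c3 := conj (a m0)) (d3 := conj (a' m0))
      (hz i2 j1 (by omega)) (hz N j1 (by omega)) (hz N j2 (by omega))
    exact (mul_eq_zero.1 ((mul_eq_zero.1 this).resolve_right hm0)).resolve_left q1
  by_cases hex : ∃ i1 j1 : Fin (n + 1), (i : ℕ) + (n - j) = i1 + (n - j1) ∧ (i1 : ℕ) < n ∧
      Q i1 j1 ≠ 0
  · obtain ⟨i1, j1, e1, l1, q1⟩ := hex
    have hj1 := j1.2
    have hj := j.2
    have hji' : (j : ℕ) ≤ i := hji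
    let m : Fin (n + 1) := ⟨j1 + n - i1, by omega⟩
    have hm : (m : ℕ) = j1 + n - i1 := rfl
    have hs : ∀ w : Fin (n + 1) → ℂ,
        (∀ ω : ℝ, mag (fun k => a k * w k) ω = mag (fun k => a' k * w k) ω) →
        w i1 * conj (w j1) * Q i1 j1 + w N * conj (w m) * Q N m = 0 := by
      intro w hw
      have := hsum w hw
      rw [Fintype.sum_eq_add (i1, j1) (N, m)] at this
      · rwa [if_pos e1, if_pos (by simp only; omega)] at this
      · intro h
        have := congrArg (fun p => (p.1 : ℕ)) h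
        simp only at this
        omega
      · rintro ⟨i2, j2⟩ ⟨n1, n2⟩
        split_ifs with e2
        · simp only at e2 ⊢
          have hj2 := j2.2
          have hi2 := i2.2
          have : Q i2 j2 = 0 := by
            rcases lt_trichotomy (i1 : ℕ) i2 with l | l | l
            · refine htwo i1 j1 i2 j2 e1 e2 l ?_ q1
              by_contra hc
              exact n2 (Prod.ext (Fin.ext (by simp only; omega)) (Fin.ext (by simp only; omega)))
            · exact absurd (Prod.ext (Fin.ext (by simp only; omega))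
                (Fin.ext (by simp only; omega))) n1
            · by_contra hc
              exact q1 (htwo i2 j2 i1 j1 e2 e1 l l1 hc)
          rw [this, mul_zero]
        · rfl
    refine hD i1 j1 m (show (j1 : ℕ) ≤ i1 by omega) l1 (by omega) ?_
    apply mul_right_cancel₀ q1
    linear_combination (w₂ N * conj (w₂ m)) * hs w₁ h1 - (w₁ N * conj (w₁ m)) * hs w₂ h2
  · push Not at hex
    have hi : i = N := by
      by_contra hc
      refine hij (hex i j rfl ?_)
      have := i.2
      have : (i : ℕ) ≠ n := fun h => hc (Fin.ext h)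
      omega
    subst hi
    have hj := j.2
    have hs : ∀ w : Fin (n + 1) → ℂ,
        (∀ ω : ℝ, mag (fun k => a k * w k) ω = mag (fun k => a' k * w k) ω) →
        w N * conj (w j) = 0 := by
      intro w hw
      have := hsum w hw
      rw [Fintype.sum_eq_single (N, j)] at this
      · rw [if_pos rfl] at this
        exact (mul_eq_zero.1 this).resolve_right hij
      · rintro ⟨i2, j2⟩ n1
        split_ifs with e2
        · simp only at e2 ⊢
          have hj2 := j2.2
          have hi2 := i2.2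
          rw [hex i2 j2 e2, mul_zero]
          by_contra hc
          exact n1 (Prod.ext (Fin.ext (by simp only; omega)) (Fin.ext (by simp only; omega)))
        · rfl
    by_cases hj0 : j = 0
    · subst hj0
      have k1 := hs w₁ h1
      have k2 := hs w₂ h2
      simp only [mul_eq_zero, map_eq_zero] at k1 k2
      simp only [ne_eq, mul_eq_zero] at h0
      tauto
    · have : (j : ℕ) ≠ 0 := fun h => hj0 (Fin.ext h)
      refine hD ⟨n - j, by omega⟩ 0 j (Fin.zero_le _) (by simp only; omega)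
        (by simp only [Fin.val_zero]; omega) ?_
      rw [hs w₁ h1, hs w₂ h2, mul_zero, mul_zero]

end Pool.Agent.MP_474a86_an
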